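import Pool.Agent.Q4.SN.Fin

/-!
# The Sobolev averaging map on norm classes is continuous
-/

open scoped NNReal ENNReal
open Q4.SN

namespace Pool.Agent.Results.MP_d9e438_al.Continuity

/-- For every group `G` with a topology, every compact subgroup `K`, every representation of `G`
on `E = V^∞`, every family of Sobolev operators `D_s` and every weight `w`: the averaged norm
`p_s^G` of `p ∈ Norm(V, w)`, `s ≥ 0`, is again in `Norm(V, w)`; on `V` it may be computed with
decompositions in `V`; the map `(s, p) ↦ p_s^G` is `1`-Lipschitz for the sum distance, and both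
the map `Φ` and the map `Φ'` which it induces on the metric space of classes at distance zero are
continuous for the product topologies. -/
theorem result {G : Type*} [Group G] [TopologicalSpace G] {E : Type*} [AddCommGroup E]
    [Module ℂ E] [TopologicalSpace E] [IsTopologicalAddGroup E] [ContinuousSMul ℂ E]
    (S : Setup G E) :
    ∃ (Φ : ℝ≥0 × NormW S → NormW S)
      (Φ' : ℝ≥0 × SeparationQuotient (NormW S) → SeparationQuotient (NormW S)),
      (∀ s p x, (Φ (s, p)).p x = avg S p.p s x) ∧
      (∀ s p, ∀ x ∈ kfin S.toRep, (Φ (s, p)).p x = sInf {r : ℝ | ∃ l : List (G × E),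
        (∀ z ∈ l, z.2 ∈ kfin S.toRep) ∧ (l.map Prod.snd).sum = x ∧ r = cost S p.p s l}) ∧
      (∀ s t p q, edist (Φ (s, p)) (Φ (t, q)) ≤ edist s t + edist p q) ∧
      Continuous Φ ∧
      (∀ s p, Φ' (s, SeparationQuotient.mk p) = SeparationQuotient.mk (Φ (s, p))) ∧
      Continuous Φ' :=
  fin S

end Pool.Agent.Results.MP_d9e438_al.Continuity
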